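import Mathlib
import Pool.Agent.Lib.MP_bfb34b_an.Final

/-!
The maximal total population `S` is not monotone in the exponent.
-/

open Set MeasureTheory
open scoped ContDiff

namespace Pool.Agent.Results.MP_bfb34b_an.NotMonotone

/-- `u` is a positive classical solution, on the interval `(a, b)`, of
`d (u/P)'' + (K/P)^lam u (1 - u/K) = 0` with `(u/P)' = 0` at `a` and at `b`. -/
structure IsPosSol (a b : ℝ) (K P : ℝ → ℝ) (lam d : ℝ) (u : ℝ → ℝ) : Prop where
  pos : ∀ x ∈ Icc a b, 0 < u x
  smooth : ContDiffOn ℝ 2 (fun x => u x / P x) (Icc a b)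
  eqn : ∀ x ∈ Ioo a b,
    d * deriv (deriv fun y => u y / P y) x + (K x / P x) ^ lam * u x * (1 - u x / K x) = 0
  left : derivWithin (fun x => u x / P x) (Icc a b) a = 0
  right : derivWithin (fun x => u x / P x) (Icc a b) b = 0

/-- The set of all total populations `∫ u` of positive solutions `u`, over all `d > 0`. -/
def popSet (a b : ℝ) (K P : ℝ → ℝ) (lam : ℝ) : Set ℝ :=
  {m | ∃ d : ℝ, 0 < d ∧ ∃ u : ℝ → ℝ, IsPosSol a b K P lam d u ∧ m = ∫ x in a..b, u x}

/-- The maximal total population `S(lam)`. -/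
noncomputable def maxPop (a b : ℝ) (K P : ℝ → ℝ) (lam : ℝ) : ℝ := sSup (popSet a b K P lam)

open Pool.Agent.Lib.MP_bfb34b_an

/-- Translation of the definition into derivative data. -/
lemma IsPosSol.toSol {a b lam d : ℝ} {K P u : ℝ → ℝ} (hab : a < b)
    (cK : ContinuousOn K (Icc a b)) (cP : ContinuousOn P (Icc a b))
    (pK : ∀ x ∈ Icc a b, 0 < K x) (pP : ∀ x ∈ Icc a b, 0 < P x) (hd : 0 < d)
    (h : IsPosSol a b K P lam d u) :
    Sol a b (fun x => u x / P x) (derivWithin (fun x => u x / P x) (Icc a b))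
      (fun x => -((K x / P x) ^ lam * u x * (1 - u x / K x)) / d) := by
  have hu : ContinuousOn u (Icc a b) := by
    have h1 : ContinuousOn (fun x => u x / P x * P x) (Icc a b) :=
      h.smooth.continuousOn.mul cP
    refine h1.congr fun x hx => ?_
    have := (pP x hx).ne'
    field_simp
  have hun : UniqueDiffOn ℝ (Icc a b) := uniqueDiffOn_Icc hab
  refine ⟨h.smooth.continuousOn, h.smooth.continuousOn_derivWithin hun (by norm_num), ?_,
    fun x hx => div_pos (h.pos x hx) (pP x hx), ?_, ?_, h.left, h.right⟩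
  · apply ContinuousOn.div_const
    apply ContinuousOn.neg
    apply ContinuousOn.mul
    · apply ContinuousOn.mul _ hu
      apply ContinuousOn.rpow_const (cK.div cP fun x hx => (pP x hx).ne')
      intro x hx
      left
      exact (div_pos (pK x hx) (pP x hx)).ne'
    · exact continuousOn_const.sub (hu.div cK fun x hx => (pK x hx).ne')
  · intro x hx
    have h1 : DifferentiableWithinAt ℝ (fun x => u x / P x) (Icc a b) x :=
      (h.smooth.differentiableOn (by norm_num)) x (Ioo_subset_Icc_self hx)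
    exact h1.hasDerivWithinAt.hasDerivAt (Icc_mem_nhds hx.1 hx.2)
  · intro x hx
    have hopen : ContDiffOn ℝ 2 (fun x => u x / P x) (Ioo a b) :=
      h.smooth.mono Ioo_subset_Icc_self
    have h1 : ContDiffOn ℝ 1 (deriv fun x => u x / P x) (Ioo a b) :=
      ((contDiffOn_succ_iff_deriv_of_isOpen isOpen_Ioo (n := 1)).1 hopen).2.2
    have h2 : DifferentiableAt ℝ (deriv fun x => u x / P x) x :=
      ((h1.differentiableOn (by norm_num)) x hx).differentiableAt (isOpen_Ioo.mem_nhds hx)
    have h3 : deriv (deriv fun x => u x / P x) x =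
        -((K x / P x) ^ lam * u x * (1 - u x / K x)) / d := by
      have := h.eqn x hx
      rw [eq_div_iff hd.ne']
      linarith
    have h4 := h2.hasDerivAt
    rw [h3] at h4
    apply h4.congr_of_eventuallyEq
    filter_upwards [isOpen_Ioo.mem_nhds hx] with y hy
    exact derivWithin_of_mem_nhds (Icc_mem_nhds hy.1 hy.2)

lemma rpow_quarter {x : ℝ} (hx : 0 < x) : (x ^ 4) ^ (1 / 4 : ℝ) = x := by
  rw [← Real.rpow_natCast, ← Real.rpow_mul hx.le]
  norm_num

lemma rpow_half {x : ℝ} (hx : 0 < x) : (x ^ 4) ^ (1 / 2 : ℝ) = x ^ 2 := by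
  rw [← Real.rpow_natCast, ← Real.rpow_mul hx.le]
  norm_num

lemma ratio_eq (x : ℝ) : Kf x / Pf x = pf x ^ 4 := by
  rw [Kf, mul_div_assoc, div_self (Pf_pos x).ne', mul_one]

/-- Boundedness of the set of total populations, for every exponent. -/
lemma bdd (lam : ℝ) : BddAbove (popSet xa 64 Kf Pf lam) := by
  refine ⟨(4096 * 10 ^ 24 + 2) * ∫ x in xa..64, Pf x, ?_⟩
  rintro m ⟨d, hd, u, hu, rfl⟩
  have hab : xa < 64 := by norm_num [xa]
  have hsol := hu.toSol hab Kf_contDiff.continuous.continuousOn Pf_cont.continuousOn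
    (fun x _ => Kf_pos x) (fun x _ => Pf_pos x) hd
  have hmax := hsol.le_of_max le_rfl hab le_rfl hsol.na hsol.nb (Q := 4096 * 10 ^ 24 + 2) (by
    intro x hx hQ
    have h1 := pf4_le' x
    have hP := Pf_pos x
    have hK := Kf_pos x
    have hup := hu.pos x hx
    have h2 : Kf x < u x := by
      have h3 : Kf x / Pf x < u x / Pf x := by
        rw [ratio_eq]
        exact lt_of_le_of_lt h1 hQ
      exact (div_lt_div_iff_of_pos_right hP).1 h3
    have h4 : 1 < u x / Kf x := (one_lt_div hK).2 h2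
    have h5 : 0 < (Kf x / Pf x) ^ lam := Real.rpow_pos_of_pos (div_pos hK hP) _
    have h6 : (Kf x / Pf x) ^ lam * u x * (1 - u x / Kf x) < 0 :=
      mul_neg_of_pos_of_neg (mul_pos h5 hup) (by linarith)
    exact div_pos (by linarith) hd)
  rw [← intervalIntegral.integral_const_mul]
  have hcu : ContinuousOn u (Icc xa 64) := by
    have h1 : ContinuousOn (fun x => u x / Pf x * Pf x) (Icc xa 64) :=
      hsol.cw.mul Pf_cont.continuousOn
    refine h1.congr fun x _ => ?_
    have := (Pf_pos x).ne'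
    field_simp
  apply intervalIntegral.integral_mono_on hab.le
  · exact ii hcu le_rfl hab.le le_rfl
  · exact (Pf_cont.intervalIntegrable _ _).const_mul _
  · intro t ht
    have h1 := hmax t ht
    rwa [div_le_iff₀ (Pf_pos t)] at h1

/-- The explicit solution at exponent `1/4`, with `d = 1`. -/
lemma sol_quarter : IsPosSol xa 64 Kf Pf (1 / 4) 1 (fun x => Pf x * wb x) := by
  have hq : (fun x => Pf x * wb x / Pf x) = wb := by
    funext x
    rw [mul_comm, mul_div_assoc, div_self (Pf_pos x).ne', mul_one]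
  have hab : xa < 64 := by norm_num [xa]
  have hd1 : deriv wb = wb1 := funext fun x => (wb_hasDerivAt x).deriv
  refine ⟨fun x _ => mul_pos (Pf_pos x) (wb_pos x), ?_, ?_, ?_, ?_⟩
  · rw [hq]
    exact (by exact_mod_cast (contDiff_infty.1 wb_contDiff 2) : ContDiff ℝ 2 wb).contDiffOn
  · intro x _
    rw [hq, hd1, (wb1_hasDerivAt x).deriv, ratio_eq, rpow_quarter (pf_pos x)]
    have hp := pf_pos x
    have hw := wb_pos x
    have hs := sg_pos x
    have ht := ta_pos x
    have hP := Pf_pos x
    have h1 : Pf x * wb x / Kf x = ta x / sg x := by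
      have h2 : Pf x * wb x / Kf x = wb x / pf x ^ 4 := by
        rw [Kf]; field_simp
      rw [h2, pf_pow4]
      field_simp
    have h2 : pf x * (Pf x * wb x) = sg x := by
      rw [Pf]; field_simp
    have h3 := ta_eq x
    rw [h2, h1]
    have h4 : sg x * (1 - ta x / sg x) = sg x - ta x := by
      field_simp
    rw [h4, h3]
    ring
  · rw [hq]
    rw [(wb_hasDerivAt xa).hasDerivWithinAt.derivWithin
      (uniqueDiffOn_Icc hab xa (left_mem_Icc.2 hab.le))]
    exact wb1_left
  · rw [hq]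
    rw [(wb_hasDerivAt 64).hasDerivWithinAt.derivWithin
      (uniqueDiffOn_Icc hab 64 (right_mem_Icc.2 hab.le))]
    exact wb1_right

/-- The upper bound at exponent `1/2`. -/
lemma upper_half {d : ℝ} (hd : 0 < d) {u : ℝ → ℝ} (hu : IsPosSol xa 64 Kf Pf (1 / 2) d u) :
    ∫ x in xa..64, u x ≤ 6.2 := by
  have hab : xa < 64 := by norm_num [xa]
  have hsol := hu.toSol hab Kf_contDiff.continuous.continuousOn Pf_cont.continuousOn
    (fun x _ => Kf_pos x) (fun x _ => Pf_pos x) hd
  have hre : (fun x => -((Kf x / Pf x) ^ (1 / 2 : ℝ) * u x * (1 - u x / Kf x)) / d) =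
      react d pf Pf (fun x => u x / Pf x) := by
    funext x
    rw [ratio_eq, rpow_half (pf_pos x), react]
    have hp := pf_pos x
    have hP := Pf_pos x
    rw [Kf]
    field_simp
  rw [hre] at hsol
  have h1 := upper geom hd hsol
  have h2 : ∫ t in xa..64, Pf t * (u t / Pf t) = ∫ t in xa..64, u t := by
    apply intervalIntegral.integral_congr
    intro t _
    have := (Pf_pos t).ne'
    simp only
    field_simp
  rwa [h2] at h1

/-- **Disproof of the monotonicity of the maximal total population.**  There is a bounded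
interval `(a, b)` and there are smooth positive `K`, `P` with `K/P` not constant on `[a, b]`
such that at exponent `1/4` some positive solution has total population at least `6.4`, at
exponent `1/2` every positive solution (whatever `d > 0`) has total population at most `6.2`,
and `S(1/2) < S(1/4)`; the suprema are finite, for every exponent. -/
theorem result : ∃ (a b : ℝ) (K P : ℝ → ℝ), a < b ∧
    ContDiff ℝ ∞ K ∧ ContDiff ℝ ∞ P ∧ (∀ x, 0 < K x) ∧ (∀ x, 0 < P x) ∧
    (∃ x ∈ Icc a b, ∃ y ∈ Icc a b, K x / P x ≠ K y / P y) ∧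
    (∀ lam, BddAbove (popSet a b K P lam)) ∧
    (∃ m ∈ popSet a b K P (1 / 4), 6.4 ≤ m) ∧
    (∀ m ∈ popSet a b K P (1 / 2), m ≤ 6.2) ∧
    maxPop a b K P (1 / 2) < maxPop a b K P (1 / 4) := by
  have hab : xa < 64 := by norm_num [xa]
  have hlow : ∃ m ∈ popSet xa 64 Kf Pf (1 / 4), (6.4 : ℝ) ≤ m :=
    ⟨_, ⟨1, one_pos, _, sol_quarter, rfl⟩, mass_lower⟩
  have hup : ∀ m ∈ popSet xa 64 Kf Pf (1 / 2), m ≤ 6.2 := by
    rintro m ⟨d, hd, u, hu, rfl⟩
    exact upper_half hd hu
  refine ⟨xa, 64, Kf, Pf, hab, Kf_contDiff, Pf_contDiff, Kf_pos, Pf_pos, ?_, bdd, hlow, hup, ?_⟩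
  · refine ⟨xa, left_mem_Icc.2 hab.le, 64, right_mem_Icc.2 hab.le, ?_⟩
    rw [ratio_eq, ratio_eq]
    have h1 := pf4_ge_half (x := xa) (by norm_num [xa])
    have h2 := qA_pt (x := 64) (by norm_num)
    have h3 := wb_G3 (x := xa) (by norm_num [xa, xo])
    intro h
    rw [h] at h1
    norm_num at *
    linarith
  · obtain ⟨m, hm, hm'⟩ := hlow
    have h1 : maxPop xa 64 Kf Pf (1 / 2) ≤ 6.2 := Real.sSup_le hup (by norm_num)
    have h2 : m ≤ maxPop xa 64 Kf Pf (1 / 4) := le_csSup (bdd _) hm
    refine lt_of_le_of_lt h1 (lt_of_lt_of_le ?_ h2)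
    refine lt_of_lt_of_le ?_ hm'
    norm_num

end Pool.Agent.Results.MP_bfb34b_an.NotMonotone
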